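import Pool.Agent.Helper56_MG.Stmts
import Pool.Agent.Helper56_MG.Base3

/-!
# MG, module DL: the density lemma
-/

open Set

namespace Pool.Agent.MG.H51

open Pool.Agent.MG

variable {I : Type} [Idx I]

/-- Parity sets of intervals. -/
def par (nn : ℕ → ℕ) : Set ℕ := {b | ∃ m, nn (2 * m) ≤ b ∧ b < nn (2 * m + 1)}

/-- Selection of a decreasing sequence of bounds. -/
def bnd (l : ℕ → ℕ) : ℕ → ℕ
  | 0 => 0
  | m + 1 => bnd l m + 1 + ∑ j ∈ Finset.range (bnd l m + 1), l j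

theorem bnd_lt (l : ℕ → ℕ) (m : ℕ) : bnd l m < bnd l (m + 1) := by
  show bnd l m < bnd l m + 1 + _
  omega

theorem bnd_mono (l : ℕ → ℕ) : StrictMono (bnd l) := strictMono_nat_of_lt_succ (bnd_lt l)

theorem bnd_le (l : ℕ → ℕ) (m : ℕ) : l (bnd l m) ≤ bnd l (m + 1) := by
  have h : l (bnd l m) ≤ ∑ j ∈ Finset.range (bnd l m + 1), l j :=
    Finset.single_le_sum (f := l) (fun _ _ => Nat.zero_le _) (Finset.mem_range.2 (Nat.lt_succ_self _))
  show l (bnd l m) ≤ bnd l m + 1 + _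
  omega

theorem le_bnd (l : ℕ → ℕ) (m : ℕ) : m ≤ bnd l m := (bnd_mono l).id_le m

theorem measC_sum {Ω : Type*} [MeasurableSpace Ω] {l : ℕ → Ω → ℕ} (hl : ∀ j, MeasC (l j))
    (n : ℕ) : MeasC (fun w => ∑ j ∈ Finset.range n, l j w) := by
  induction n with
  | zero =>
    have : (fun w : Ω => ∑ j ∈ Finset.range 0, l j w) = fun _ => 0 := by
      funext w
      simp
    rw [this]
    exact measC_const 0
  | succ n ih =>
    have : (fun w : Ω => ∑ j ∈ Finset.range (n + 1), l j w)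
        = fun w => (fun z : ℕ × ℕ => z.1 + z.2) ((∑ j ∈ Finset.range n, l j w), l n w) := by
      funext w
      simp only [Finset.sum_range_succ]
    rw [this]
    exact (ih.prodMk (hl n)).comp (fun z : ℕ × ℕ => z.1 + z.2)

theorem measC_bnd {Ω : Type*} [MeasurableSpace Ω] {l : ℕ → Ω → ℕ} (hl : ∀ j, MeasC (l j))
    (m : ℕ) : MeasC (fun w => bnd (fun j => l j w) m) := by
  induction m with
  | zero => exact measC_const 0
  | succ m ih =>
    have h := ih.bindC (g := fun a w => a + 1 + ∑ j ∈ Finset.range (a + 1), l j w) fun a =>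
      (measC_sum hl (a + 1)).comp fun b => a + 1 + b
    exact h

theorem measurable_par {Ω : Type*} [MeasurableSpace Ω] {nn : ℕ → Ω → ℕ}
    (hn : ∀ m, MeasC (nn m)) : Measurable (fun w => par (fun m => nn m w)) := by
  rw [measurable_nat_iff]
  intro b
  have : {w | b ∈ par (fun m => nn m w)}
      = ⋃ m, ({w | nn (2 * m) w ∈ Set.Iic b} ∩ {w | nn (2 * m + 1) w ∈ Set.Ioi b}) := by
    ext w
    simp [par]
  rw [this]
  exact MeasurableSet.iUnion fun m => ((hn _).preimage _).inter ((hn _).preimage _)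

/-- Dichotomy for the parity set. -/
theorem par_use {nn : ℕ → ℕ} (hn : StrictMono nn) {B : Set ℕ} {i : Bool}
    (h : ∀ b ∈ B, (b ∈ par nn ↔ i = true)) (m : ℕ) :
    ∃ k, m ≤ k ∧ ∀ b ∈ B, nn k ≤ b → nn (k + 1) ≤ b := by
  cases i with
  | true =>
    refine ⟨2 * m + 1, by omega, fun b hb hle => ?_⟩
    obtain ⟨m', h1, h2⟩ := (h b hb).2 rfl
    have h3 : 2 * m + 1 < 2 * m' + 1 := hn.lt_iff_lt.1 (lt_of_le_of_lt hle h2)
    exact le_trans (hn.monotone (by omega)) h1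
  | false =>
    refine ⟨2 * m, by omega, fun b hb hle => ?_⟩
    by_contra hc
    have := (h b hb).1 ⟨m, hle, not_le.1 hc⟩
    simp at this

/-- DL -/
theorem dl (hProp : PropStmt I) (hCst2 : Cst2Stmt I) : DlStmt I := by
  classical
  intro β α α' hαα' hα'β hRp f hf hfd p hp C hC i hStar 𝔡 hOk hBel r' hr' hr'le C' hC'C hC'
  obtain ⟨hBRw, hCst, hSequ⟩ := hProp α
  have hαβ : α < β := lt_trans hαα' hα'β
  obtain ⟨c1, -, -, -⟩ := hCst2 α hBRw hCst
  -- the rule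
  let Ru : ℕ → Cond I → Set ℕ → Prop := fun n d C2 => ∃ 𝔡' : Dat I, 𝔡'.Ok I β α' f i ∧
    (∀ y ∈ d.body, 𝔡'.Bel I (𝔡.e n y)) ∧ d ≤ 𝔡'.r.restr α ∧ 𝔡'.C = C2
  have hRu : ∀ n d, VB α d → d ≤ r' → ∀ C1 ⊆ C', C1.Infinite → ∃ d', d' ≤ d ∧ VB α d' ∧
      ∃ C2 ⊆ C1, C2.Infinite ∧ Ru n d' C2 := by
    intro n d hd hdr C1 hC1 hC1i
    obtain ⟨d1, hd1, hvd1, e, he⟩ := c1 d hd (Cond I) (𝔡.e n) (hOk.me n).1 (hOk.me n).2
    have hd1r : d1 ≤ 𝔡.r := le_trans hd1 (le_trans hdr hr'le)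
    obtain ⟨y0, hy0⟩ := d1.body_nonempty
    have hve : VB β e := by
      rw [← he y0 hy0]
      exact (hOk.ve y0 (hd1r hy0) n).1
    have hle : d1 ≤ e.restr α := by
      intro y hy
      rw [← he y hy]
      exact (hOk.ve y (hd1r hy) n).2
    have hle' : d1.restr α ≤ e.restr α := by
      rw [hvd1.below.restr_eq]
      exact hle
    have hg : VB β (Cond.glue d1 e α) := VB.glue hvd1 hve hαβ.le hle'
    have hge : Cond.glue d1 e α ≤ e := Cond.glue_le_right hle'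
    have hep : e ≤ p := by
      rw [← he y0 hy0]
      exact hBel y0 (hd1r hy0) n
    obtain ⟨𝔡', hOk', hBel', hC2⟩ := hStar (Cond.glue d1 e α) hg (le_trans hge hep) C1
      (hC1.trans (hC'C)) hC1i
    have hr1 : 𝔡'.r ≤ (Cond.glue d1 e α).restr α' := by
      intro y hy
      exact Cond.restr_mono (hBel' y hy 0) α' (hOk'.ve y hy 0).2
    have hr2 : 𝔡'.r.restr α ≤ d1 := by
      have h1 := Cond.restr_mono hr1 α
      rw [Cond.restr_restr _ hαα'.le, Cond.glue_restr _ _ le_rfl, hvd1.below.restr_eq] at h1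
      exact h1
    refine ⟨𝔡'.r.restr α, le_trans hr2 hd1, hOk'.vr.restr α, 𝔡'.C, hC2, hOk'.inf,
      𝔡', hOk', fun y hy => ?_, le_rfl, rfl⟩
    rw [he y (hr2 hy)]
    exact fun y' hy' j => le_trans (hBel' y' hy' j) hge
  obtain ⟨q, hqr, hvq, B, hBC, hBi, hE⟩ := hSequ r' hr' C' hC' Ru hRu
  choose E hEc hEq hEd using hE
  -- choice of the data
  have hch : ∀ n : ℕ, ∀ d : Cond I, ∃ 𝔡' : Dat I, d ∈ E n → 𝔡'.Ok I β α' f i ∧
      (∀ y ∈ d.body, 𝔡'.Bel I (𝔡.e n y)) ∧ d ≤ 𝔡'.r.restr α ∧ (B \ 𝔡'.C).Finite := by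
    intro n d
    by_cases hd : d ∈ E n
    · obtain ⟨-, -, C2, -, -, hfin, 𝔡', h1, h2, h3, h4⟩ := hEd n d hd
      exact ⟨𝔡', fun _ => ⟨h1, h2, h3, by rw [h4]; exact hfin⟩⟩
    · exact ⟨𝔡, fun h => absurd h hd⟩
  choose Dt hDt using hch
  have hsel : ∀ n : ℕ, ∃ c : Pt I → Cond I, MeasC c ∧ DepOn (Set.Iio α) c ∧
      ∀ y, (∃ d ∈ E n, y ∈ d.body) → c y ∈ E n ∧ y ∈ (c y).body := by
    intro n
    have : Nonempty (Cond I) := ⟨Cond.one I⟩
    refine exists_sel (E n) (hEc n) (fun d y => y ∈ d.body) (fun d _ => d.measurableSet_body)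
      (Set.Iio α) fun d hd y y' h => ?_
    exact propext ((hEd n d hd).1.below.mem_congr h)
  choose c hcm hcd hc using hsel
  have hcq : ∀ n, ∀ y ∈ q.body, c n y ∈ E n ∧ y ∈ (c n y).body := by
    intro n y hy
    apply hc n y
    have := hEq n hy
    simp only [Set.mem_iUnion, exists_prop] at this
    exact this
  -- the bounds
  have hl : ∀ X : Set ℕ, ∃ l : ℕ, (B \ X).Finite → ∀ b ∈ B, l ≤ b → b ∈ X := by
    intro X
    by_cases hX : (B \ X).Finite
    · obtain ⟨l, hl⟩ := hX.bddAbove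
      refine ⟨l + 1, fun _ b hb hlb => ?_⟩
      by_contra hbX
      have := hl ⟨hb, hbX⟩
      omega
    · exact ⟨0, fun h => absurd h hX⟩
  choose lb hlb using hl
  let l : ℕ → Pt I → ℕ := fun n y => lb (Dt n (c n y)).C
  have hlm : ∀ n, MeasC (l n) := fun n => (hcm n).comp fun d => lb (Dt n d).C
  let nn : ℕ → Pt I → ℕ := fun m y => bnd (fun j => l j y) m
  have hnn : ∀ m, MeasC (nn m) := fun m => measC_bnd hlm m
  have hA : Measurable (fun y => par (fun m => nn m y)) := measurable_par hnn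
  have hAd : Dep α (fun y => par (fun m => nn m y)) := by
    intro y y' h
    have hcc : ∀ n, c n y = c n y' := fun n => hcd n y y' fun j hj => h j hj
    simp only [nn, l, hcc]
  obtain ⟨r'', hr''q, hvr'', B', hB'B, hB'i, i', hi'⟩ := hRp q hvq B hBi _ hA hAd
  refine ⟨r'', le_trans hr''q hqr, hvr'', B', hB'B.trans hBC, hB'i,
    fun j y => Dt j (c j y), fun j => ⟨(hcm j).comp _, fun y y' h => ?_⟩, fun y hy => ⟨fun j => ?_,
      fun m => ?_⟩⟩
  · show Dt j (c j y) = Dt j (c j y')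
    rw [hcd j y y' fun k hk => h k hk]
  · obtain ⟨h1, h2⟩ := hcq j y (hr''q hy)
    obtain ⟨g1, g2, g3, g4⟩ := hDt j (c j y) h1
    exact ⟨g1, g2 y h2, g3 h2, g4.subset fun b hb => ⟨hB'B hb.1, hb.2⟩⟩
  · obtain ⟨k, hk, hk2⟩ := par_use (nn := fun m => nn m y) (bnd_mono _) (hi' y hy) m
    refine ⟨nn k y, le_trans hk (le_bnd _ _), fun b hb hkb => ?_⟩
    obtain ⟨h1, h2⟩ := hcq (nn k y) y (hr''q hy)
    obtain ⟨g1, g2, g3, g4⟩ := hDt (nn k y) (c (nn k y) y) h1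
    refine hlb _ g4 b (hB'B hb) ?_
    exact le_trans (bnd_le (fun j => l j y) k) (hk2 b hb hkb)

end Pool.Agent.MG.H51
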