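import Pool.Agent.Helper51_MG.Dl

/-!
# MG, module FACT4: gaps of the Miller reals
-/

open Set

namespace Pool.Agent.MG.H51

open Pool.Agent.MG

theorem ini_succ (g : ℕ → ℕ) (n : ℕ) : ini g (n + 1) = ini g n ++ [g n] := by
  simp [ini, List.range_succ]

/-- The branches through `s 0 ... 0 1`. -/
theorem z1_false {s : Node} {m : ℕ} {x : R} (h : On (z1 s m) x) {k : ℕ} (h1 : s.length ≤ k)
    (h2 : k < s.length + m) : x k = false := by
  unfold On at h
  have hlen : (z1 s m).length = s.length + m + 1 := by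
    simp [z1]
    omega
  have h3 : k < (pre x (z1 s m).length).length := by
    rw [length_pre, hlen]
    omega
  have h4 := getElem_pre x (z1 s m).length k h3
  rw [← h4]
  have h5 : (pre x (z1 s m).length)[k] = (z1 s m)[k]'(by rw [hlen]; omega) := by
    congr 1
  rw [h5]
  show (s ++ List.replicate m false ++ [true])[k]'_ = false
  rw [List.getElem_append_left (by simp; omega), List.getElem_append_right h1,
    List.getElem_replicate]

/-- The union of the intervals contains every number in `[nn 0, ∞)`. -/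
theorem exists_interval {nn : ℕ → ℕ} (hn : StrictMono nn) {b : ℕ} (hb : nn 0 ≤ b) :
    ∃ m, nn m ≤ b ∧ b < nn (m + 1) := by
  have h1 : ∃ m, b < nn m := ⟨b + 1, lt_of_lt_of_le (Nat.lt_succ_self b) (hn.id_le (b + 1))⟩
  classical
  obtain ⟨m, hm⟩ : ∃ m, Nat.find h1 = m + 1 := by
    refine Nat.exists_eq_succ_of_ne_zero fun h0 => ?_
    have := Nat.find_spec h1
    rw [h0] at this
    omega
  refine ⟨m, ?_, ?_⟩
  · exact not_lt.1 (Nat.find_min h1 (by omega))
  · rw [← hm]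
    exact Nat.find_spec h1

/-- Which parity. -/
theorem parity {nn : ℕ → ℕ} (hn : StrictMono nn) {b : ℕ} (hb : nn 0 ≤ b) {i : Bool}
    (h : b ∈ par nn ↔ i = true) :
    ∃ m, m % 2 = (if (!i) then 1 else 0) ∧ nn m ≤ b ∧ b < nn (m + 1) := by
  cases i with
  | true =>
    obtain ⟨m, h1, h2⟩ := h.2 rfl
    exact ⟨2 * m, by simp, h1, h2⟩
  | false =>
    obtain ⟨m, h1, h2⟩ := exists_interval hn hb
    refine ⟨m, ?_, h1, h2⟩
    have h3 : m % 2 ≠ 0 := by
      intro h0
      have h4 : b ∈ par nn := by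
        refine ⟨m / 2, ?_, ?_⟩
        · rw [show 2 * (m / 2) = m by omega]; exact h1
        · rw [show 2 * (m / 2) + 1 = m + 1 by omega]; exact h2
      have := h.1 h4
      simp at this
    simp
    omega

variable {I : Type} [Idx I]

/-- The monotone majorant. -/
def hmaj (h : ℕ → ℕ) (n : ℕ) : ℕ := ∑ i ∈ Finset.range (n + 1), h i

theorem hmaj_mono (h : ℕ → ℕ) : Monotone (hmaj h) := by
  intro a b hab
  exact Finset.sum_le_sum_of_subset (Finset.range_mono (by omega))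

theorem le_hmaj (h : ℕ → ℕ) (n : ℕ) : h n ≤ hmaj h n :=
  Finset.single_le_sum (f := h) (fun _ _ => Nat.zero_le _) (Finset.mem_range.2 (Nat.lt_succ_self _))

/-- Loss of control. -/
def Kf (h : ℕ → ℕ) (a : ℕ) : ℕ := Nat.findGreatest (fun n => hmaj h n ≤ a) a

theorem Kf_le {h : ℕ → ℕ} {a n : ℕ} (hn : n < Kf h a) : h n ≤ a := by
  have h1 : hmaj h (Kf h a) ≤ a := Nat.findGreatest_of_ne_zero (m := Kf h a)
    (P := fun n => hmaj h n ≤ a) rfl (by omega)
  exact le_trans (le_hmaj h n) (le_trans (hmaj_mono h hn.le) h1)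

theorem le_Kf {h : ℕ → ℕ} {a n : ℕ} (h1 : n ≤ a) (h2 : hmaj h n ≤ a) : n ≤ Kf h a :=
  Nat.le_findGreatest h1 h2

theorem measurable_Kf {Ω : Type*} [MeasurableSpace Ω] {h : Ω → ℕ → ℕ} (hh : Measurable h) (a : ℕ) :
    Measurable (fun w => Kf (h w) a) := by
  refine measurable_findGreatest fun k _ => ?_
  have h1 : Measurable (fun w => hmaj (h w) k) := by
    unfold hmaj
    exact Finset.measurable_sum _ fun i _ => (measurable_pi_apply i).comp hh
  exact h1 (measurableSet_Iic (a := a))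

/-- FACT4 -/
theorem fact4 (hProp : PropStmt I) (hRall : RallStmt I) (hGap : GapStmt) (hTsy : TsyStmt)
    (hFtm : FtMStmt) (hCst2 : Cst2Stmt I) : Fact4Stmt I := by
  classical
  intro β j htj hjβ p hp h hm hd
  obtain ⟨s, ms, hs, hms, hT⟩ := hTsy
  obtain ⟨nn, D, hnn, hD, hgap⟩ := hGap
  obtain ⟨hftm, hftmm⟩ := hFtm
  obtain ⟨hBRw, hCst, -⟩ := hProp j
  obtain ⟨c1, -, -, -⟩ := hCst2 j hBRw hCst
  -- the control data
  let z : Pt I → (List ℕ → ℕ) × (List ℕ → ℕ → ℕ) := fun y =>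
    (fun σ => (s σ (p.T j y)).length,
      fun σ k => Kf (h y) ((s σ (p.T j y)).length + ms σ k (p.T j y)))
  have hsc : ∀ σ, MeasC (fun y => s σ (p.T j y)) := fun σ =>
    ⟨fun x => (p.meas j) ((hs σ).1 x), (hs σ).2.mono (by rintro _ ⟨y, rfl⟩; exact ⟨_, rfl⟩)⟩
  have hmc : ∀ σ k, MeasC (fun y => ms σ k (p.T j y)) := fun σ k =>
    ⟨fun x => (p.meas j) ((hms σ k).1 x), (hms σ k).2.mono (by rintro _ ⟨y, rfl⟩; exact ⟨_, rfl⟩)⟩
  have hz : Measurable z := by
    refine Measurable.prodMk (measurable_pi_lambda _ fun σ => ?_)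
      (measurable_pi_lambda _ fun σ => measurable_pi_lambda _ fun k => ?_)
    · exact ((hsc σ).comp List.length).measurable
    · have h1 : MeasC (fun y => (s σ (p.T j y)).length + ms σ k (p.T j y)) :=
        ((hsc σ).prodMk (hmc σ k)).comp (fun a : Node × ℕ => a.1.length + a.2)
      exact h1.bind (g := fun a y => Kf (h y) a) fun a => measurable_Kf hm a
  have hzd : Dep j z := by
    intro y y' hyy
    have e1 : p.T j y = p.T j y' := p.dep j y y' hyy
    have e2 : h y = h y' := hd y y' hyy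
    simp only [z, e1, e2]
  have hgood : ∀ y, Good true (p.T j y) := fun y => by
    have := p.good j y
    rwa [htj] at this
  have hzc : ∀ y, ∀ σ n, ∃ k, n ≤ k ∧ n ≤ (z y).2 σ k := by
    intro y σ n
    refine ⟨max n (hmaj (h y) n), le_max_left _ _, ?_⟩
    have h1 := ((hT _ (hgood y)).1 σ).id_le (max n (hmaj (h y) n))
    have h2 : max n (hmaj (h y) n) ≤ ms σ (max n (hmaj (h y) n)) (p.T j y) := h1
    refine le_Kf ?_ ?_
    · exact le_trans (le_trans (le_max_left _ _) h2) (Nat.le_add_left _ _)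
    · exact le_trans (le_trans (le_max_right _ _) h2) (Nat.le_add_left _ _)
  have hnz : ∀ k, MeasC (fun y => nn (z y) k) := fun k =>
    ⟨fun x => hz ((hnn k).1 x), (hnn k).2.mono (by rintro _ ⟨y, rfl⟩; exact ⟨_, rfl⟩)⟩
  -- decision of the first number and of the parity
  obtain ⟨q0, hq0, hvq0, N0, hN0⟩ := c1 (p.restr j) (hp.restr j) ℕ (fun y => nn (z y) 0) (hnz 0)
    (fun y y' hyy => by
      show nn (z y) 0 = nn (z y') 0
      rw [hzd y y' hyy])
  obtain ⟨q1, hq1, hvq1, B, hBC, hBi, i, hi⟩ := hRall j q0 hvq0 (Set.Ici N0) (Set.Ici_infinite N0)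
    (fun y => par (nn (z y))) (measurable_par hnz) (fun y y' hyy => by
      show par (nn (z y)) = par (nn (z y'))
      rw [hzd y y' hyy])
  -- the tree
  let T' : Pt I → Set Node := fun y => ftM (fun σ => s σ (p.T j y)) (D (!i) (z y))
  have hT'm : Measurable T' := hftmm (Pt I) (fun σ y => s σ (p.T j y)) (fun y => D (!i) (z y)) hsc
    (fun σ => hz (hD (!i) σ))
  have hT'd : Dep j T' := by
    intro y y' hyy
    have e1 : p.T j y = p.T j y' := p.dep j y y' hyy
    simp only [T', e1, hzd y y' hyy]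
  have hT'g : ∀ y, Good true (T' y) ∧ T' y ⊆ p.T j y ∧ ∀ x ∈ bd true (T' y), ∃ g : ℕ → ℕ, ∀ n,
      ini g n ∈ D (!i) (z y) ∧ On (s (ini g n) (p.T j y)) x := by
    intro y
    obtain ⟨t1, t2, t3⟩ := hT _ (hgood y)
    obtain ⟨g1, g2⟩ := hgap (z y) (hzc y)
    obtain ⟨f1, f2⟩ := hftm (fun σ => s σ (p.T j y)) (fun σ k => ms σ k (p.T j y)) (D (!i) (z y))
      (g2 (!i)).1 t1 t2
    refine ⟨f1, ?_, f2⟩
    rintro t ⟨σ, -, hts⟩
    exact (hgood y).mem_of_isPrefix hts (t3 σ)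
  have hq1p : q1 ≤ p.restr j := le_trans hq1 hq0
  have hq1p' : q1.restr j ≤ p.restr j := by
    rw [hvq1.below.restr_eq]
    exact hq1p
  have hvg : VB β (Cond.glue q1 p j) := VB.glue hvq1 hp hjβ.le hq1p'
  have hTj : (Cond.glue q1 p j).T j = p.T j := Cond.glue_T_ge _ _ le_rfl
  have hcond : ∀ y ∈ ((Cond.glue q1 p j).restr j).body,
      Good (ty j) (T' y) ∧ T' y ⊆ (Cond.glue q1 p j).T j y := by
    intro y _
    rw [htj, hTj]
    exact ⟨(hT'g y).1, (hT'g y).2.1⟩
  refine ⟨(Cond.glue q1 p j).setT j T' hT'm hT'd, le_trans (Cond.setT_le _ T' hT'm hT'd hcond)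
    (Cond.glue_le_right hq1p'), VB.setT hvg hjβ T' hT'm hT'd hcond
      (fun h0 => by rw [htj] at h0; simp at h0), B, hBi, fun y hy n hn k hnk hkh => ?_⟩
  have hyq : y ∈ q1.body := Cond.glue_le_left hvq1.below (Cond.setT_le _ T' hT'm hT'd hcond hy)
  have hyj : y j ∈ bd true (T' y) := by
    have h1 := hy j (Set.mem_insert _ _)
    rw [Cond.setT_T_self _ T' hT'm hT'd (by rw [htj]; exact (hT'g y).1), htj] at h1
    exact h1
  obtain ⟨g, hg⟩ := (hT'g y).2.2 (y j) hyj
  obtain ⟨g1, g2⟩ := hgap (z y) (hzc y)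
  have hn0 : nn (z y) 0 ≤ n := by
    rw [hN0 y (hq1 hyq)]
    exact hBC hn
  obtain ⟨m, hm1, hm2, hm3⟩ := parity g1 hn0 (hi y hyq n hn)
  obtain ⟨j', hj1, hj2⟩ := ((g2 (!i)).2 m hm1 n hm2 hm3).2 g fun n => (hg n).1
  have h1 : h y n ≤ (s (ini g j') (p.T j y)).length + ms (ini g j') (g j') (p.T j y) := Kf_le hj2
  have h2 : On (s (ini g (j' + 1)) (p.T j y)) (y j) := (hg (j' + 1)).2
  rw [ini_succ] at h2
  have h3 : On (z1 (s (ini g j') (p.T j y)) (ms (ini g j') (g j') (p.T j y))) (y j) :=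
    h2.of_prefix ((hT _ (hgood y)).2.1 (ini g j') (g j'))
  exact z1_false h3 (le_trans hj1 hnk) (lt_of_lt_of_le hkh h1)

end Pool.Agent.MG.H51
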